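import Pool.Agent.H500.TH.Stm
import Pool.Agent.H71.HC.Crt
import Pool.Agent.H181.HC.Exp

set_option autoImplicit false
set_option linter.unusedSectionVars false

/-!
# Project TH, part B2: the exponents of ray class characters modulo a place of any degree
-/

namespace Pool.Agent.H113.TH.TExp

open NumberField IsDedekindDomain
open Pool.Agent.H500.HC (InRay IsRayChar TotPos em)
open Pool.Agent.H500.TH
open Pool.Agent.H181.HC.Exp (raySub mem_raySub inRay_mul)

section unram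

variable {K : Type} [Field K] [NumberField K]

/-- a prime number larger than the discriminant is unramified -/
theorem squarefree_span {l : ℕ} (hl : l.Prime) (hB : (discr K).natAbs < l) :
    Squarefree (Ideal.span {(l : 𝓞 K)}) := by
  intro J hJ
  by_contra hJ1
  have hJt : J ≠ ⊤ := fun h => hJ1 (Ideal.isUnit_iff.2 h)
  obtain ⟨P, hP, hJP⟩ := Ideal.exists_le_maximal J hJt
  have h1 : P ^ 2 ∣ Ideal.span {(l : 𝓞 K)} := by
    rw [pow_two]
    exact (mul_dvd_mul (Ideal.dvd_iff_le.2 hJP) (Ideal.dvd_iff_le.2 hJP)).trans hJ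
  have hlP : (l : 𝓞 K) ∈ P := by
    have h2 := Ideal.dvd_iff_le.1 ((dvd_pow_self P two_ne_zero).trans h1)
    exact h2 (Ideal.mem_span_singleton_self _)
  have hlZ : Prime (l : ℤ) := Nat.prime_iff_prime_int.1 hl
  have hmax : (Ideal.span {(l : ℤ)}).IsMaximal :=
    PrincipalIdealRing.isMaximal_of_irreducible hlZ.irreducible
  have hne : Ideal.span {(l : ℤ)} ≠ ⊥ := by
    rw [Ne, Ideal.span_singleton_eq_bot]
    exact hlZ.ne_zero
  have h3 : P ^ 2 ∣ (Ideal.span {(l : ℤ)}).map (algebraMap ℤ (𝓞 K)) := by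
    rw [Ideal.map_span, Set.image_singleton]
    simpa using h1
  have h4 := pow_sub_one_dvd_differentIdeal (A := ℤ) (B := 𝓞 K) P 2 hne h3
  rw [show 2 - 1 = 1 from rfl, pow_one] at h4
  have h5 : Ideal.absNorm P ∣ (discr K).natAbs := by
    rw [← NumberField.absNorm_differentIdeal K (𝓞 K)]
    exact Ideal.absNorm_dvd_absNorm_of_le (Ideal.dvd_iff_le.1 h4)
  have h6 : l ∣ Ideal.absNorm P := by
    by_contra hn
    have h7 : IsCoprime (l : ℤ) ((Ideal.absNorm P : ℕ) : ℤ) :=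
      Nat.isCoprime_iff_coprime.2 ((Nat.Prime.coprime_iff_not_dvd hl).2 hn)
    obtain ⟨a, b, hab⟩ := h7
    apply hP.ne_top
    rw [Ideal.eq_top_iff_one]
    have h8 : (a : 𝓞 K) * (l : 𝓞 K) + (b : 𝓞 K) * ((Ideal.absNorm P : ℕ) : 𝓞 K) = 1 := by
      exact_mod_cast congrArg (fun z : ℤ => (z : 𝓞 K)) hab
    rw [← h8]
    exact P.add_mem (P.mul_mem_left _ hlP) (P.mul_mem_left _ (Ideal.absNorm_mem P))
  have h9 : (discr K).natAbs ≠ 0 := Int.natAbs_ne_zero.2 (discr_ne_zero K)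
  have h10 := Nat.le_of_dvd (Nat.pos_of_ne_zero h9) (h6.trans h5)
  omega

/-- an element in all the primes above `l` is divisible by `l` -/
theorem dvd_of_forall {l : ℕ} (hl : l.Prime) (hB : (discr K).natAbs < l) (x : 𝓞 K)
    (hx : ∀ w : HeightOneSpectrum (𝓞 K), (l : 𝓞 K) ∈ w.asIdeal → x ∈ w.asIdeal) :
    (l : 𝓞 K) ∣ x := by
  have hl0 : (l : 𝓞 K) ≠ 0 := Nat.cast_ne_zero.2 hl.ne_zero
  have h1 : IsRadical (Ideal.span {(l : 𝓞 K)}) := (squarefree_span hl hB).isRadical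
  have h2 : x ∈ (Ideal.span {(l : 𝓞 K)}).radical := by
    rw [Ideal.radical_eq_sInf, Ideal.mem_sInf]
    rintro P ⟨hP1, hP2⟩
    have hlP : (l : 𝓞 K) ∈ P := hP1 (Ideal.mem_span_singleton_self _)
    have hPb : P ≠ ⊥ := by
      rintro rfl
      exact hl0 ((Submodule.mem_bot _).1 hlP)
    exact hx ⟨P, hP2, hPb⟩ hlP
  obtain ⟨n, hn⟩ := h2
  have h3 : Ideal.span {(l : 𝓞 K)} ∣ (Ideal.span {x}) ^ n := by
    rw [Ideal.dvd_iff_le, Ideal.span_singleton_pow, Ideal.span_singleton_le_iff_mem]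
    exact hn
  have h4 := h1 n _ h3
  rw [Ideal.dvd_iff_le, Ideal.span_singleton_le_iff_mem, Ideal.mem_span_singleton] at h4
  exact h4

end unram

section gen

variable {K : Type} [Field K] [NumberField K] {k : Type} [Field k]

/-- a generator of the units of the residue field -/
theorem exists_gen (ψ : 𝓞 K →+* k) (h : RingHom.ker ψ ≠ ⊥) : ∃ (g : 𝓞 K) (n : ℕ), 0 < n ∧
    IsPrimitiveRoot (ψ g) n ∧ ∀ x, ψ x ≠ 0 → ∃ b : ℕ, ψ x = ψ g ^ b := by
  have hfin : Finite (𝓞 K ⧸ RingHom.ker ψ) := Ideal.finiteQuotientOfFreeOfNeBot _ h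
  have hfin2 : Finite ψ.range := Finite.of_equiv _ (RingHom.quotientKerEquivRange ψ).toEquiv
  have hfin3 : Finite (ψ.range)ˣ := inferInstance
  obtain ⟨g, hg⟩ := IsCyclic.exists_generator (α := (ψ.range)ˣ)
  have h1 : IsPrimitiveRoot g (Nat.card (ψ.range)ˣ) := by
    have h2 := IsPrimitiveRoot.orderOf g
    rw [orderOf_eq_card_of_forall_mem_zpowers hg] at h2
    exact h2
  have h2 : IsPrimitiveRoot (g : ψ.range) (Nat.card (ψ.range)ˣ) := IsPrimitiveRoot.coe_units_iff.2 h1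
  have h3 : IsPrimitiveRoot (ψ.range.subtype (g : ψ.range)) (Nat.card (ψ.range)ˣ) :=
    h2.map_of_injective (f := ψ.range.subtype) Subtype.val_injective
  obtain ⟨g0, hg0⟩ := (g : ψ.range).2
  refine ⟨g0, Nat.card (ψ.range)ˣ, Nat.card_pos, ?_, fun x hx => ?_⟩
  · rw [hg0]
    exact h3
  · have hF : IsField ψ.range := Finite.isField_of_domain _
    have hx0 : (⟨ψ x, ⟨x, rfl⟩⟩ : ψ.range) ≠ 0 := by
      intro h0
      exact hx (congrArg Subtype.val h0)
    obtain ⟨y, hy⟩ := hF.mul_inv_cancel hx0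
    let u : (ψ.range)ˣ := Units.mkOfMulEqOne _ _ hy
    obtain ⟨b, hb⟩ := (mem_powers_iff_mem_zpowers (x := g) (y := u)).2 (hg u)
    refine ⟨b, ?_⟩
    have h7 : (g : ψ.range) ^ b = ⟨ψ x, ⟨x, rfl⟩⟩ := by
      have h8 : ((g ^ b : (ψ.range)ˣ) : ψ.range) = (u : ψ.range) :=
        congrArg (fun u : (ψ.range)ˣ => (u : ψ.range)) hb
      rw [Units.val_pow_eq_pow_val] at h8
      exact h8
    have h9 := congrArg Subtype.val h7
    rw [hg0]
    simpa using h9.symm

end gen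

/-- the ideal of `K` below `L` -/
theorem comap_data {K F : Type} [Field K] [NumberField K] [Field F] [NumberField F]
    (L : HeightOneSpectrum (𝓞 F)) {l : ℕ} (hl : l.Prime) (hlL : (l : 𝓞 F) ∈ L.asIdeal)
    (t : K →+* F) : (L.asIdeal.comap (RingOfIntegers.mapRingHom t)).IsPrime ∧
      (l : 𝓞 K) ∈ L.asIdeal.comap (RingOfIntegers.mapRingHom t) ∧
      L.asIdeal.comap (RingOfIntegers.mapRingHom t) ≠ ⊥ := by
  have h1 : (l : 𝓞 K) ∈ L.asIdeal.comap (RingOfIntegers.mapRingHom t) := by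
    rw [Ideal.mem_comap, map_natCast]
    exact hlL
  have := L.isPrime
  refine ⟨Ideal.comap_isPrime _ _, h1, fun h => ?_⟩
  rw [h, Ideal.mem_bot] at h1
  exact hl.ne_zero (Nat.cast_eq_zero.1 h1)

theorem main (hPlc : S_Plc) : S_TExp := by
  classical
  intro K F _ _ _ _ hcard
  refine ⟨(discr K).natAbs, fun L l hl hlL hB N hN hlN k _ φ hφ χ hχ => ?_⟩
  set c : (K →+* F) → Ideal (𝓞 K) := fun t => L.asIdeal.comap (RingOfIntegers.mapRingHom t)
    with hc
  set ψ : (K →+* F) → 𝓞 K →+* k := fun t => φ.comp (RingOfIntegers.mapRingHom t) with hψ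
  have hker : ∀ t, RingHom.ker (ψ t) = c t := by
    intro t
    rw [hψ, hc]
    show RingHom.ker (φ.comp (RingOfIntegers.mapRingHom t)) = _
    rw [← RingHom.comap_ker, hφ]
  have hcmem : ∀ (t : K →+* F) (x : 𝓞 K), x ∈ c t ↔ ψ t x = 0 := by
    intro t x
    rw [← hker, RingHom.mem_ker]
  have hlk : (l : k) = 0 := by
    have h1 : (l : 𝓞 F) ∈ RingHom.ker φ := by
      rw [hφ]
      exact hlL
    rwa [RingHom.mem_ker, map_natCast] at h1
  have hcop : Nat.Coprime N l := ((Nat.Prime.coprime_iff_not_dvd hl).2 hlN).symm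
  -- representatives
  obtain ⟨R0, -, hR0⟩ := Set.exists_subset_bijOn (Set.univ : Set (K →+* F)) c
  set R : Finset (K →+* F) := R0.toFinite.toFinset with hR
  have hRmem : ∀ t, t ∈ R ↔ t ∈ R0 := by
    intro t
    rw [hR, Set.Finite.mem_toFinset]
  have hinj : ∀ t ∈ R, ∀ t' ∈ R, c t = c t' → t = t' := by
    intro t ht t' ht' h
    exact hR0.injOn ((hRmem t).1 ht) ((hRmem t').1 ht') h
  have hsurj : ∀ t, ∃ t' ∈ R, c t' = c t := by
    intro t
    obtain ⟨t', ht', h⟩ := hR0.surjOn ⟨t, Set.mem_univ _, rfl⟩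
    exact ⟨t', (hRmem t').2 ht', h⟩
  -- divisibility by `l`
  have hdiv : ∀ x : 𝓞 K, (∀ t ∈ R, ψ t x = 1) → (l : 𝓞 K) ∣ x - 1 := by
    intro x hx
    refine dvd_of_forall hl hB _ fun w hw => ?_
    obtain ⟨t, ht⟩ := hPlc K F hcard L w l hl hlL hw
    obtain ⟨t', ht', h⟩ := hsurj t
    have h2 : c t' = w.asIdeal := h.trans ht
    rw [← h2, hcmem, map_sub, map_one, hx t' ht', sub_self]
  -- generators
  have hgen : ∀ t : K →+* F, ∃ (g : 𝓞 K) (n : ℕ), 0 < n ∧ IsPrimitiveRoot (ψ t g) n ∧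
      ∀ x : 𝓞 K, ψ t x ≠ 0 → ∃ b : ℕ, ψ t x = ψ t g ^ b := by
    intro t
    refine exists_gen (ψ t) ?_
    rw [hker]
    exact (comap_data L hl hlL t).2.2
  choose g n hn hg hgc using hgen
  -- the elements `y t`
  have hy : ∀ t : K →+* F, ∃ y : 𝓞 K, InRay N y ∧ ∀ t' ∈ R, ψ t' y =
      if t' = t then ψ t (g t) else 1 := by
    intro t
    obtain ⟨y0, hy0⟩ := IsDedekindDomain.exists_forall_sub_mem_ideal (s := R) c (fun _ => 1)
      (fun i _ => (Ideal.prime_iff_isPrime (comap_data L hl hlL i).2.2).2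
        (comap_data L hl hlL i).1)
      (fun i hi j hj hij h => hij (hinj i hi j hj h))
      (fun i => if (i : K →+* F) = t then g t else 1)
    obtain ⟨a, b, hab⟩ := (Nat.isCoprime_iff_coprime.2 hcop.symm : IsCoprime (l : ℤ) (N : ℤ))
    have hab' : (a : 𝓞 K) * (l : 𝓞 K) + (b : 𝓞 K) * (N : 𝓞 K) = 1 := by
      exact_mod_cast congrArg (fun z : ℤ => (z : 𝓞 K)) hab
    obtain ⟨m, hm0, hm1⟩ := Pool.Agent.H71.HC.Crt.exists_pos
      (y0 + (a : 𝓞 K) * (l : 𝓞 K) * (1 - y0)) (N * l) (Nat.mul_pos hN hl.pos)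
    refine ⟨_, ⟨hm0, ?_, hm1⟩, fun t' ht' => ?_⟩
    · refine ⟨(b : 𝓞 K) * (y0 - 1) + (m : 𝓞 K) * (l : 𝓞 K), ?_⟩
      have h1 : (a : 𝓞 K) * (l : 𝓞 K) = 1 - (b : 𝓞 K) * (N : 𝓞 K) := by
        rw [← hab']
        ring
      push_cast
      rw [h1]
      ring
    · have h1 := hy0 t' ht'
      rw [pow_one, hcmem, map_sub, sub_eq_zero] at h1
      simp only [map_add, map_mul, map_natCast, map_sub, map_one, Nat.cast_mul, hlk, mul_zero,
        zero_mul, add_zero]
      rw [h1]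
      by_cases h2 : t' = t
      · rw [if_pos h2, if_pos h2, h2]
      · rw [if_neg h2, if_neg h2, map_one]
  choose y hy1 hy2 using hy
  have hspan_mul : ∀ a b : 𝓞 K, χ (Ideal.span {a * b}) = χ (Ideal.span {a}) * χ (Ideal.span {b}) := by
    intro a b
    rw [← Ideal.span_singleton_mul_span_singleton, map_mul]
  have hspan_pow : ∀ (a : 𝓞 K) (n : ℕ), χ (Ideal.span {a ^ n}) = χ (Ideal.span {a}) ^ n := by
    intro a n
    rw [← Ideal.span_singleton_pow, map_pow]
  have hspan_prod : ∀ (s : Finset (K →+* F)) (f : (K →+* F) → 𝓞 K),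
      χ (Ideal.span {∏ σ ∈ s, f σ}) = ∏ σ ∈ s, χ (Ideal.span {f σ}) := by
    intro s f
    rw [← Ideal.prod_span_singleton, map_prod]
  have ha : ∀ t : K →+* F, ∃ a : ℕ, t ∈ R → χ (Ideal.span {y t}) = ψ t (g t) ^ a ∧
      χ (Ideal.span {y t}) ^ n t = 1 := by
    intro t
    by_cases ht : t ∈ R
    · have h1 : InRay (N * l) (y t ^ n t) := by
        refine inRay_mul hcop ((raySub N).pow_mem (mem_raySub.2 (hy1 t)) _) (hdiv _ fun t' ht' => ?_)
        rw [map_pow, hy2 t t' ht']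
        split_ifs
        · exact (hg t).pow_eq_one
        · exact one_pow _
      have h2 := hχ.ray _ h1
      rw [hspan_pow] at h2
      have : NeZero (n t) := ⟨(hn t).ne'⟩
      obtain ⟨a, -, ha⟩ := (hg t).eq_pow_of_pow_eq_one h2
      exact ⟨a, fun _ => ⟨ha.symm, h2⟩⟩
    · exact ⟨0, fun h => absurd h ht⟩
  choose a ha using ha
  refine ⟨fun t => if t ∈ R then a t else 0, fun t t' ht ht' htt => ?_, fun x hx hxl => ?_⟩
  · have h1 : t ∈ R := by
      by_contra h
      exact ht (if_neg h)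
    have h2 : t' ∈ R := by
      by_contra h
      exact ht' (if_neg h)
    exact hinj t h1 t' h2 htt
  · have hx0 : ∀ t : K →+* F, ψ t x ≠ 0 := by
      intro t h0
      obtain ⟨hP, hlc, -⟩ := comap_data L hl hlL t
      obtain ⟨I, J, hIJ⟩ := hxl
      apply hP.ne_top
      have h1 : x ∈ c t := (hcmem t x).2 h0
      rw [← top_le_iff, ← Ideal.one_eq_top, ← hIJ, Ideal.add_eq_sup]
      exact sup_le (Ideal.mul_le_right.trans ((Ideal.span_singleton_le_iff_mem _).2 h1))
        (Ideal.mul_le_right.trans ((Ideal.span_singleton_le_iff_mem _).2 hlc))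
    choose b hb using fun t : K →+* F => hgc t x (hx0 t)
    have hz : InRay (N * l) (x * ∏ t ∈ R, y t ^ ((n t - 1) * b t)) := by
      refine inRay_mul hcop ((raySub N).mul_mem (mem_raySub.2 hx) ((raySub N).prod_mem fun t _ =>
        (raySub N).pow_mem (mem_raySub.2 (hy1 t)) _)) (hdiv _ fun t' ht' => ?_)
      rw [map_mul, map_prod, hb]
      have h2 : ∏ t ∈ R, ψ t' (y t ^ ((n t - 1) * b t)) = ψ t' (g t') ^ ((n t' - 1) * b t') := by
        rw [Finset.prod_eq_single t']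
        · rw [map_pow, hy2 t' t' ht', if_pos rfl]
        · intro t _ ht
          rw [map_pow, hy2 t t' ht', if_neg ht.symm, one_pow]
        · intro h
          exact absurd ht' h
      rw [h2, ← pow_add]
      have h3 : b t' + (n t' - 1) * b t' = n t' * b t' := by
        obtain ⟨m, hm⟩ := Nat.exists_eq_add_of_lt (hn t')
        rw [hm]
        have e1 : 0 + m + 1 - 1 = m := by omega
        rw [e1]
        ring
      rw [h3, pow_mul, (hg t').pow_eq_one, one_pow]
    have h1 := hχ.ray _ hz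
    rw [hspan_mul, hspan_prod] at h1
    have h2 : (χ (Ideal.span {x}) * ∏ t ∈ R, χ (Ideal.span {y t ^ ((n t - 1) * b t)})) *
        ∏ t ∈ R, χ (Ideal.span {y t}) ^ b t = ∏ t ∈ R, χ (Ideal.span {y t}) ^ b t := by
      rw [h1, one_mul]
    rw [mul_assoc, ← Finset.prod_mul_distrib] at h2
    have h3 : ∏ t ∈ R, (χ (Ideal.span {y t ^ ((n t - 1) * b t)}) * χ (Ideal.span {y t}) ^ b t) = 1 := by
      apply Finset.prod_eq_one
      intro t ht
      rw [hspan_pow, ← pow_add]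
      have h4 : (n t - 1) * b t + b t = n t * b t := by
        obtain ⟨m, hm⟩ := Nat.exists_eq_add_of_lt (hn t)
        rw [hm]
        have e1 : 0 + m + 1 - 1 = m := by omega
        rw [e1]
        ring
      rw [h4, pow_mul, (ha t ht).2, one_pow]
    rw [h3, mul_one] at h2
    rw [h2]
    have h5 : ∏ t, φ (em t x) ^ (if t ∈ R then a t else 0) = ∏ t ∈ R, ψ t x ^ a t := by
      rw [← Finset.prod_subset (Finset.subset_univ R)]
      · refine Finset.prod_congr rfl fun t ht => ?_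
        rw [if_pos ht]
        rfl
      · intro t _ ht
        rw [if_neg ht, pow_zero]
    rw [h5]
    refine Finset.prod_congr rfl fun t ht => ?_
    rw [(ha t ht).1, hb, ← pow_mul, ← pow_mul, mul_comm]

end Pool.Agent.H113.TH.TExp
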